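import Mathlib

set_option autoImplicit false

/-!
# An Eulerian binary matroid with `c₂(M) > a(M)`

`M ⊆ F_2 ^ 8` is the union of two copies, in complementary `4`-dimensional subspaces, of the set of
the `12` vectors of `F_2 ^ 4` outside a plane. It has `24` elements, rank `8` and it is a union of
three bases, so `a(M) = 3`. A circuit contained in `M` lies in one of the two copies and has at most
`5` elements; the intersection of every other circuit with `M` is independent, so it has at most `8`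
elements. Hence three circuits `C₁, C₂, C₃` with symmetric difference `M` would meet `M` in exactly
`8` elements each, and each would have exactly one element outside of `M`. But every vector outside
of `M` is in an even number of the `C_i`, so the sum of the three numbers `|C_i \ M| = 1` would be
even. Four circuits suffice.
-/

namespace Pool.Agent.Results.MP_a03d73_co.FourCircuits

open Finset

/-- A finite set of vectors over `F_2` is Eulerian if the sum of its elements is `0`. -/
def Eulerian {n : ℕ} (S : Finset (Fin n → ZMod 2)) : Prop := ∑ x ∈ S, x = 0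

/-- Linear independence over `F_2` of a finite set of vectors. -/
def Independent {n : ℕ} (S : Finset (Fin n → ZMod 2)) : Prop :=
  LinearIndepOn (ZMod 2) id (S : Set (Fin n → ZMod 2))

/-- A circuit is an inclusion-minimal nonempty Eulerian set of nonzero vectors. -/
def IsCircuit {n : ℕ} (C : Finset (Fin n → ZMod 2)) : Prop :=
  Minimal (fun D : Finset (Fin n → ZMod 2) => D.Nonempty ∧ 0 ∉ D ∧ Eulerian D) C

/-- The family `C₁, …, C_t` is a circuit odd-cover of `M`: all its members are circuits and their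
symmetric difference is `M`, that is, the elements of `M` are exactly the vectors that lie in an odd
number of the `C_i`. -/
def IsOddCover {n t : ℕ} (M : Finset (Fin n → ZMod 2)) (C : Fin t → Finset (Fin n → ZMod 2)) :
    Prop :=
  (∀ i, IsCircuit (C i)) ∧ ∀ v, v ∈ M ↔ Odd (#{i | v ∈ C i})

/-- `c₂(M)`: the least number of members of a circuit odd-cover of `M`. -/
noncomputable def c2 {n : ℕ} (M : Finset (Fin n → ZMod 2)) : ℕ :=
  sInf {t | ∃ C : Fin t → Finset (Fin n → ZMod 2), IsOddCover M C}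

/-- `a(M)`: the least `t` such that `M` is the union of `t` linearly independent sets. -/
noncomputable def arboricity {n : ℕ} (M : Finset (Fin n → ZMod 2)) : ℕ :=
  sInf {t | ∃ I : Fin t → Finset (Fin n → ZMod 2), (∀ i, Independent (I i)) ∧ univ.biUnion I = M}

/-! ### Independence over `F_2` and subset sums -/

lemma independent_of_sums {n : ℕ} {S : Finset (Fin n → ZMod 2)}
    (h : ∀ D ⊆ S, D.Nonempty → ∑ x ∈ D, x ≠ 0) : Independent S := by
  classical
  unfold Independent
  rw [linearIndepOn_finset_iff]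
  intro f hf i hi
  by_contra hne
  have key : ∑ x ∈ S.filter (fun x => f x ≠ 0), x = 0 := by
    rw [← hf, Finset.sum_filter]
    refine Finset.sum_congr rfl fun x hx => ?_
    split_ifs with h0
    · have : f x = 1 := by
        have := h0
        revert this
        generalize f x = a
        revert a; decide
      simp [this]
    · push Not at h0
      simp [h0]
  exact h _ (Finset.filter_subset _ _) ⟨i, by simp [hi, hne]⟩ key

lemma card_le_of_independent {n : ℕ} {S : Finset (Fin n → ZMod 2)} (h : Independent S) :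
    S.card ≤ n := by
  have h1 : LinearIndependent (ZMod 2) (fun x : S => (x : Fin n → ZMod 2)) := h
  have := h1.fintype_card_le_finrank
  simpa using this

lemma IsCircuit.sum_ne {n : ℕ} {C D : Finset (Fin n → ZMod 2)} (hC : IsCircuit C) (hD : D ⊂ C)
    (hne : D.Nonempty) : ∑ x ∈ D, x ≠ 0 := by
  intro h0
  have h1 := hC.2 (y := D) ⟨hne, fun h => hC.1.2.1 (hD.1 h), h0⟩ hD.1
  exact hD.2 h1

lemma IsCircuit.independent_of_ssubset {n : ℕ} {C D : Finset (Fin n → ZMod 2)} (hC : IsCircuit C)
    (hD : D ⊂ C) : Independent D :=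
  independent_of_sums fun _ hE hne => hC.sum_ne (lt_of_le_of_lt hE hD) hne

lemma IsCircuit.card_le {n : ℕ} {C : Finset (Fin n → ZMod 2)} (hC : IsCircuit C) :
    C.card ≤ n + 1 := by
  classical
  obtain ⟨x, hx⟩ := hC.1.1
  have := card_le_of_independent (hC.independent_of_ssubset (Finset.erase_ssubset hx))
  rw [Finset.card_erase_of_mem hx] at this
  omega

lemma isCircuit_insert {n : ℕ} {S : Finset (Fin n → ZMod 2)} (hS : ∀ D ⊆ S, D.Nonempty →
    ∑ x ∈ D, x ≠ 0) (hne : S.Nonempty) (hz : ∑ x ∈ S, x ∉ S) :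
    IsCircuit (insert (∑ x ∈ S, x) S) := by
  classical
  have hs0 : ∑ x ∈ S, x ≠ 0 := hS S subset_rfl hne
  have hself : ∀ v : Fin n → ZMod 2, v + v = 0 := fun v => by
    ext i; simp only [Pi.add_apply, Pi.zero_apply]; generalize v i = a; revert a; decide
  refine ⟨⟨Finset.insert_nonempty _ _, ?_, ?_⟩, ?_⟩
  · intro h
    rcases Finset.mem_insert.1 h with h | h
    · exact hs0 h.symm
    · exact hS {0} (Finset.singleton_subset_iff.2 h) (Finset.singleton_nonempty _) (by simp)
  · unfold Eulerian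
    rw [Finset.sum_insert hz, hself]
  · rintro D ⟨hD1, hD2, hD3⟩ hDC
    -- the element `∑ S` has to be in `D`
    have hzD : ∑ x ∈ S, x ∈ D := by
      by_contra hzD
      refine hS D (fun x hx => ?_) hD1 hD3
      rcases Finset.mem_insert.1 (hDC hx) with h | h
      · exact absurd (h ▸ hx) hzD
      · exact h
    intro x hx
    by_contra hxD
    rcases Finset.mem_insert.1 hx with h | h
    · exact hxD (h ▸ hzD)
    · -- then the complement of `D` in `S` has sum zero
      have h1 : D.erase (∑ x ∈ S, x) ⊆ S := by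
        intro y hy
        rcases Finset.mem_insert.1 (hDC (Finset.mem_of_mem_erase hy)) with h | h
        · exact absurd h (Finset.ne_of_mem_erase hy)
        · exact h
      have h2 : ∑ y ∈ S \ (D.erase (∑ x ∈ S, x)), y = 0 := by
        have e1 := Finset.sum_sdiff (f := fun y : Fin n → ZMod 2 => y) h1
        have e2 := Finset.add_sum_erase D (fun y : Fin n → ZMod 2 => y) hzD
        unfold Eulerian at hD3
        rw [hD3] at e2
        have e3 : ∑ y ∈ D.erase (∑ x ∈ S, x), y = ∑ x ∈ S, x := by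
          have := hself (∑ x ∈ S, x)
          exact (add_left_cancel (e2.trans this.symm))
        rw [e3] at e1
        exact (add_eq_right.1 e1)
      refine hS _ Finset.sdiff_subset ⟨x, ?_⟩ h2
      simp only [Finset.mem_sdiff, Finset.mem_erase, not_and]
      exact ⟨h, fun _ => hxD⟩

/-! ### The matroid -/

/-- The vector of `F_2 ^ 8` whose coordinates are the binary digits of `a`. -/
def vec (a : ℕ) : Fin 8 → ZMod 2 := fun i => if a.testBit i then 1 else 0

lemma vec_xor (a b : ℕ) : vec (a ^^^ b) = vec a + vec b := by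
  funext i
  simp only [vec, Nat.testBit_xor, Pi.add_apply]
  cases a.testBit i <;> cases b.testBit i <;> decide

lemma vec_inj {a b : ℕ} (ha : a < 256) (hb : b < 256) (h : vec a = vec b) : a = b := by
  refine Nat.eq_of_testBit_eq fun i => ?_
  rcases lt_or_ge i 8 with hi | hi
  · have := congrFun h ⟨i, hi⟩
    simp only [vec] at this
    cases h1 : a.testBit i <;> cases h2 : b.testBit i <;> simp_all
  · rw [Nat.testBit_lt_two_pow (lt_of_lt_of_le ha (by
        calc 256 = 2 ^ 8 := by norm_num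
          _ ≤ 2 ^ i := Nat.pow_le_pow_right (by norm_num) hi)),
      Nat.testBit_lt_two_pow (lt_of_lt_of_le hb (by
        calc 256 = 2 ^ 8 := by norm_num
          _ ≤ 2 ^ i := Nat.pow_le_pow_right (by norm_num) hi))]

lemma vec_zero : vec 0 = 0 := by
  funext i
  simp [vec]

instance : Std.Commutative (fun a b : ℕ => a ^^^ b) := ⟨Nat.xor_comm⟩
instance : Std.Associative (fun a b : ℕ => a ^^^ b) := ⟨Nat.xor_assoc⟩

/-- The bitwise sum of a finite set of numbers. -/
def xsum (S : Finset ℕ) : ℕ := S.fold (fun a b => a ^^^ b) 0 id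

lemma sum_vec (S : Finset ℕ) : ∑ a ∈ S, vec a = vec (xsum S) := by
  classical
  induction S using Finset.induction_on with
  | empty => simp [xsum, vec_zero]
  | insert a S ha ih =>
    rw [Finset.sum_insert ha, ih, ← vec_xor]
    congr 1
    unfold xsum
    rw [Finset.fold_insert ha]
    rfl

lemma vec_injOn {S : Finset ℕ} (hS : ∀ a ∈ S, a < 256) : Set.InjOn vec (S : Set ℕ) :=
  fun _ ha _ hb h => vec_inj (hS _ ha) (hS _ hb) h

lemma sum_image_vec {S : Finset ℕ} (hS : ∀ a ∈ S, a < 256) :
    ∑ x ∈ S.image vec, x = vec (xsum S) := by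
  rw [Finset.sum_image (vec_injOn hS), sum_vec]

lemma sums_image {S : Finset ℕ} (hS : ∀ a ∈ S, a < 256)
    (h : ∀ D ∈ S.powerset, D.Nonempty → xsum D ≠ 0 ∧ xsum D < 256) :
    ∀ D ⊆ S.image vec, D.Nonempty → ∑ x ∈ D, x ≠ 0 := by
  classical
  intro D hD hne
  obtain ⟨E, hE, rfl⟩ := Finset.subset_image_iff.1 hD
  rw [sum_image_vec fun a ha => hS a (hE ha)]
  have h1 := h E (Finset.mem_powerset.2 hE) (Finset.image_nonempty.1 hne)
  intro h2
  rw [← vec_zero] at h2
  exact h1.1 (vec_inj h1.2 (by norm_num) h2)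

/-- The numbers that encode the elements of the matroid: the numbers from `4` to `15`, and their
products with `16`. -/
def M' : Finset ℕ :=
  {4, 5, 6, 7, 8, 9, 10, 11, 12, 13, 14, 15, 64, 80, 96, 112, 128, 144, 160, 176, 192, 208, 224, 240}

/-- The matroid: the vectors `(u, 0)` and `(0, u)` with `u ∈ F_2 ^ 4`, `(u₂, u₃) ≠ (0, 0)`. -/
def M : Finset (Fin 8 → ZMod 2) := M'.image vec

lemma M'_lt : ∀ a ∈ M', a < 256 := by decide +kernel

lemma card_M : M.card = 24 := by
  rw [M, Finset.card_image_of_injOn (vec_injOn M'_lt)]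
  decide +kernel

lemma eulerian_M : Eulerian M := by
  unfold Eulerian
  rw [M, sum_image_vec M'_lt]
  have : xsum M' = 0 := by decide +kernel
  rw [this, vec_zero]

lemma zero_notMem_M : (0 : Fin 8 → ZMod 2) ∉ M := by
  intro h
  obtain ⟨a, ha, h0⟩ := Finset.mem_image.1 h
  rw [← vec_zero] at h0
  have := vec_inj (M'_lt a ha) (by norm_num) h0
  subst this
  revert ha
  decide +kernel

/-- The codes of three bases with union `M`. -/
def I' : Fin 3 → Finset ℕ :=
  ![{4, 5, 6, 8, 64, 80, 96, 128}, {7, 9, 10, 12, 112, 144, 160, 192},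
    {11, 13, 14, 15, 176, 208, 224, 240}]

/-- Three bases with union `M`. -/
def I (i : Fin 3) : Finset (Fin 8 → ZMod 2) := (I' i).image vec

lemma sums_I (i : Fin 3) : ∀ D ⊆ I i, D.Nonempty → ∑ x ∈ D, x ≠ 0 := by
  have h1 : ∀ i, ∀ a ∈ I' i, a < 256 := by decide +kernel
  have h2 : ∀ i, ∀ D ∈ (I' i).powerset, D.Nonempty → xsum D ≠ 0 ∧ xsum D < 256 := by
    decide +kernel
  exact sums_image (h1 i) (h2 i)

lemma I_union : univ.biUnion I = M := by
  have h : univ.biUnion I' = M' := by decide +kernel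
  rw [M, ← h, Finset.biUnion_image]
  rfl

/-- The codes of four independent sets which partition `M`. -/
def J' : Fin 4 → Finset ℕ :=
  ![{4, 5, 8, 64, 80, 128}, {10, 12, 15, 160, 192, 240}, {6, 7, 9, 96, 112, 144},
    {11, 13, 14, 176, 208, 224}]

/-- Four independent sets which partition `M`. -/
def J (i : Fin 4) : Finset (Fin 8 → ZMod 2) := (J' i).image vec

lemma J'_lt : ∀ i, ∀ a ∈ J' i, a < 256 := by decide +kernel

lemma sums_J (i : Fin 4) : ∀ D ⊆ J i, D.Nonempty → ∑ x ∈ D, x ≠ 0 := by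
  have h2 : ∀ i, ∀ D ∈ (J' i).powerset, D.Nonempty → xsum D ≠ 0 ∧ xsum D < 256 := by
    decide +kernel
  exact sums_image (J'_lt i) (h2 i)

lemma J'_sum : ∀ i, (J' i).Nonempty ∧ xsum (J' i) ∉ J' i ∧ xsum (J' i) < 256 := by decide +kernel

lemma sum_J (i : Fin 4) : ∑ x ∈ J i, x = vec (xsum (J' i)) := sum_image_vec (J'_lt i)

lemma exists_code (v : Fin 8 → ZMod 2) : ∃ a < 256, vec a = v := by
  have h1 : ((range 256).image vec).card = 256 := by
    rw [Finset.card_image_of_injOn (vec_injOn (fun a ha => Finset.mem_range.1 ha))]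
    simp
  have h2 : (range 256).image vec = univ := by
    apply Finset.eq_univ_of_card
    rw [h1]
    simp [ZMod.card]
  have h3 : v ∈ (range 256).image vec := by rw [h2]; exact Finset.mem_univ v
  obtain ⟨a, ha, h⟩ := Finset.mem_image.1 h3
  exact ⟨a, Finset.mem_range.1 ha, h⟩

lemma mem_image_vec {S : Finset ℕ} (hS : ∀ a ∈ S, a < 256) {a : ℕ} (ha : a < 256) :
    vec a ∈ S.image vec ↔ a ∈ S := by
  constructor
  · intro h
    obtain ⟨b, hb, h⟩ := Finset.mem_image.1 h
    rwa [← vec_inj (hS b hb) ha h]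
  · exact fun h => Finset.mem_image_of_mem _ h

lemma J_cover (v : Fin 8 → ZMod 2) :
    v ∈ M ↔ Odd (#{i | v ∈ insert (∑ x ∈ J i, x) (J i)}) := by
  obtain ⟨a, ha, rfl⟩ := exists_code v
  have h1 : ∀ a < 256, a ∈ M' ↔ Odd (#{i | a ∈ insert (xsum (J' i)) (J' i)}) := by
    decide +kernel
  have h2 : ∀ i, (vec a ∈ insert (∑ x ∈ J i, x) (J i)) ↔ a ∈ insert (xsum (J' i)) (J' i) := by
    intro i
    rw [sum_J, Finset.mem_insert, Finset.mem_insert, J, mem_image_vec (J'_lt i) ha]
    refine or_congr ⟨fun h => vec_inj ha (J'_sum i).2.2 h, fun h => by rw [h]⟩ Iff.rfl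
  rw [M, mem_image_vec M'_lt ha, h1 a ha]
  simp only [h2]

lemma four_circuits : IsOddCover M (fun i : Fin 4 => insert (∑ x ∈ J i, x) (J i)) := by
  refine ⟨fun i => isCircuit_insert (sums_J i) ((J'_sum i).1.image _) ?_, J_cover⟩
  rw [sum_J, J, mem_image_vec (J'_lt i) (J'_sum i).2.2]
  exact (J'_sum i).2.1

/-! ### Three circuits do not suffice -/

/-- The projection of `F_2 ^ 8` to the first four coordinates. -/
def L₁ : (Fin 8 → ZMod 2) →ₗ[ZMod 2] (Fin 4 → ZMod 2) :=
  LinearMap.funLeft (ZMod 2) (ZMod 2) ![0, 1, 2, 3]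

/-- The projection of `F_2 ^ 8` to the last four coordinates. -/
def L₂ : (Fin 8 → ZMod 2) →ₗ[ZMod 2] (Fin 4 → ZMod 2) :=
  LinearMap.funLeft (ZMod 2) (ZMod 2) ![4, 5, 6, 7]

lemma L₁_eq {v : Fin 8 → ZMod 2} : L₁ v = 0 ↔ v 0 = 0 ∧ v 1 = 0 ∧ v 2 = 0 ∧ v 3 = 0 := by
  simp [L₁, funext_iff, Fin.forall_fin_succ, LinearMap.funLeft]

lemma L₂_eq {v : Fin 8 → ZMod 2} : L₂ v = 0 ↔ v 4 = 0 ∧ v 5 = 0 ∧ v 6 = 0 ∧ v 7 = 0 := by
  simp [L₂, funext_iff, Fin.forall_fin_succ, LinearMap.funLeft]

lemma eq_zero {v : Fin 8 → ZMod 2} (h1 : L₁ v = 0) (h2 : L₂ v = 0) : v = 0 := by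
  rw [L₁_eq] at h1
  rw [L₂_eq] at h2
  funext i
  fin_cases i <;> simp_all

lemma mem_M {v : Fin 8 → ZMod 2} (h : v ∈ M) : L₂ v = 0 ∨ L₁ v = 0 := by
  rw [L₁_eq, L₂_eq]
  obtain ⟨a, ha, rfl⟩ := Finset.mem_image.1 h
  have key : ∀ a ∈ M', ((¬ a.testBit 4 ∧ ¬ a.testBit 5 ∧ ¬ a.testBit 6 ∧ ¬ a.testBit 7) ∨
      (¬ a.testBit 0 ∧ ¬ a.testBit 1 ∧ ¬ a.testBit 2 ∧ ¬ a.testBit 3)) := by decide +kernel
  rcases key a ha with ⟨h1, h2, h3, h4⟩ | ⟨h1, h2, h3, h4⟩
  · left
    exact ⟨if_neg h1, if_neg h2, if_neg h3, if_neg h4⟩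
  · right
    exact ⟨if_neg h1, if_neg h2, if_neg h3, if_neg h4⟩

lemma card_le_four {D : Finset (Fin 8 → ZMod 2)} (hD : Independent D)
    {L L' : (Fin 8 → ZMod 2) →ₗ[ZMod 2] (Fin 4 → ZMod 2)} (h0 : ∀ v, L v = 0 → L' v = 0 → v = 0)
    (h : ∀ v ∈ D, L v = 0) : D.card ≤ 4 := by
  have h1 : LinearIndependent (ZMod 2) (fun x : D => (x : Fin 8 → ZMod 2)) := hD
  have h2 : Disjoint (Submodule.span (ZMod 2) (Set.range (fun x : D => (x : Fin 8 → ZMod 2))))
      (LinearMap.ker L') := by
    rw [Submodule.disjoint_def]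
    intro x hx hx'
    have h3 : Submodule.span (ZMod 2) (Set.range (fun x : D => (x : Fin 8 → ZMod 2))) ≤
        LinearMap.ker L := by
      rw [Submodule.span_le]
      rintro _ ⟨y, rfl⟩
      exact h _ y.2
    exact h0 x (h3 hx) hx'
  have := (h1.map h2).fintype_card_le_finrank
  simpa using this

lemma circuit_in_M {C : Finset (Fin 8 → ZMod 2)} (hC : IsCircuit C) (hCM : C ⊆ M) :
    C.card ≤ 5 := by
  classical
  have hsplit := Finset.sum_filter_add_sum_filter_not C (fun v => L₂ v = 0) (fun v => v)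
  have h0 : ∑ x ∈ C, x = 0 := hC.1.2.2
  rw [h0] at hsplit
  have hB : L₁ (∑ x ∈ C.filter (fun v => ¬ L₂ v = 0), x) = 0 := by
    rw [map_sum]
    refine Finset.sum_eq_zero fun x hx => ?_
    rw [Finset.mem_filter] at hx
    exact (mem_M (hCM hx.1)).resolve_left hx.2
  have hA2 : L₂ (∑ x ∈ C.filter (fun v => L₂ v = 0), x) = 0 := by
    rw [map_sum]
    exact Finset.sum_eq_zero fun x hx => (Finset.mem_filter.1 hx).2
  have hA1 : L₁ (∑ x ∈ C.filter (fun v => L₂ v = 0), x) = 0 := by
    have := congrArg L₁ hsplit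
    rw [map_add, hB, add_zero, map_zero] at this
    exact this
  have hA : ∑ x ∈ C.filter (fun v => L₂ v = 0), x = 0 := eq_zero hA1 hA2
  obtain ⟨y, hy⟩ := hC.1.1
  have hind := hC.independent_of_ssubset (Finset.erase_ssubset hy)
  have hcard := Finset.card_erase_of_mem hy
  rcases (C.filter (fun v => L₂ v = 0)).eq_empty_or_nonempty with he | hne
  · have hall : ∀ v ∈ C.erase y, L₁ v = 0 := by
      intro v hv
      have hvC := Finset.mem_of_mem_erase hv
      refine (mem_M (hCM hvC)).resolve_left fun h => ?_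
      have : v ∈ C.filter (fun v => L₂ v = 0) := by simp [hvC, h]
      rw [he] at this
      simp at this
    have := card_le_four hind (L' := L₂) (fun v h1 h2 => eq_zero h1 h2) hall
    omega
  · have hall : ∀ v ∈ C.erase y, L₂ v = 0 := by
      intro v hv
      by_contra hv2
      have hss : C.filter (fun v => L₂ v = 0) ⊂ C := by
        refine ⟨Finset.filter_subset _ _, fun hsub => ?_⟩
        exact hv2 (Finset.mem_filter.1 (hsub (Finset.mem_of_mem_erase hv))).2
      exact hC.sum_ne hss hne hA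
    have := card_le_four hind (L' := L₁) (fun v h1 h2 => eq_zero h2 h1) hall
    omega

lemma circuit_inter {C : Finset (Fin 8 → ZMod 2)} (hC : IsCircuit C) :
    (C ∩ M).card ≤ 8 ∧ ((C ∩ M).card = 8 → (C \ M).card = 1) := by
  classical
  by_cases hCM : C ⊆ M
  · have := circuit_in_M hC hCM
    rw [Finset.inter_eq_left.2 hCM]
    omega
  · have hss : C ∩ M ⊂ C := by
      refine ⟨Finset.inter_subset_left, fun h => hCM fun x hx => ?_⟩
      exact (Finset.mem_inter.1 (h hx)).2
    have h1 := card_le_of_independent (hC.independent_of_ssubset hss)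
    have h2 := hC.card_le
    have h3 := Finset.card_inter_add_card_sdiff C M
    have h4 : 0 < (C \ M).card := by
      rw [Finset.card_pos]
      obtain ⟨x, hx, hxM⟩ := Finset.not_subset.1 hCM
      exact ⟨x, by simp [hx, hxM]⟩
    omega

lemma four_le {t : ℕ} {C : Fin t → Finset (Fin 8 → ZMod 2)} (hC : IsOddCover M C) : 4 ≤ t := by
  classical
  by_contra ht
  push Not at ht
  have h1 : ∀ i, (C i ∩ M).card ≤ 8 := fun i => (circuit_inter (hC.1 i)).1
  have h2 : M ⊆ univ.biUnion (fun i => C i ∩ M) := by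
    intro v hv
    have := (hC.2 v).1 hv
    obtain ⟨i, hi⟩ := Finset.card_pos.1 this.pos
    simp only [Finset.mem_filter, Finset.mem_univ, true_and] at hi
    exact Finset.mem_biUnion.2 ⟨i, Finset.mem_univ _, Finset.mem_inter.2 ⟨hi, hv⟩⟩
  have h3 : 24 ≤ ∑ i, (C i ∩ M).card := by
    rw [← card_M]
    exact (Finset.card_le_card h2).trans Finset.card_biUnion_le
  have h4 : ∑ i, (C i ∩ M).card ≤ ∑ _i : Fin t, 8 := Finset.sum_le_sum fun i _ => h1 i
  simp only [Finset.sum_const, Finset.card_univ, Fintype.card_fin, smul_eq_mul] at h4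
  obtain rfl : t = 3 := by omega
  have h5 : ∀ i, (C i ∩ M).card = 8 := by
    intro i
    rw [Fin.sum_univ_three] at h3
    have a0 := h1 0
    have a1 := h1 1
    have a2 := h1 2
    fin_cases i <;> simp <;> omega
  have h6 : ∀ i, (C i \ M).card = 1 := fun i => (circuit_inter (hC.1 i)).2 (h5 i)
  have h7 : ∑ v ∈ univ \ M, #{i | v ∈ C i} = ∑ i, (C i \ M).card := by
    simp only [Finset.card_eq_sum_ones, Finset.sum_filter]
    rw [Finset.sum_comm]
    refine Finset.sum_congr rfl fun i _ => ?_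
    rw [← Finset.sum_filter]
    refine Finset.sum_congr ?_ fun _ _ => rfl
    ext v
    simp [and_comm]
  have h8 : Even (∑ v ∈ univ \ M, #{i | v ∈ C i}) := by
    refine Finset.even_sum _ fun v hv => ?_
    rw [Finset.mem_sdiff] at hv
    have := mt (hC.2 v).2 hv.2
    exact Nat.not_odd_iff_even.1 this
  rw [h7] at h8
  simp only [h6, Finset.sum_const, Finset.card_univ, Fintype.card_fin, smul_eq_mul] at h8
  revert h8
  decide

/-- There is an Eulerian binary matroid `M` (in `F_2 ^ 8`) with arboricity `a(M) = 3` and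
`c₂(M) = 4`, so that every circuit odd-cover of `M` uses more than `a(M)` circuits. -/
theorem result : ∃ (n : ℕ) (M : Finset (Fin n → ZMod 2)),
    (0 ∉ M ∧ Eulerian M) ∧ arboricity M = 3 ∧ c2 M = 4 := by
  classical
  refine ⟨8, M, ⟨zero_notMem_M, eulerian_M⟩, ?_, ?_⟩
  · apply le_antisymm
    · exact Nat.sInf_le ⟨I, fun i => independent_of_sums (sums_I i), I_union⟩
    · refine le_csInf ⟨3, I, fun i => independent_of_sums (sums_I i), I_union⟩ ?_
      rintro t ⟨K, hK, hKM⟩
      have h1 : M.card ≤ ∑ i, (K i).card := by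
        rw [← hKM]; exact Finset.card_biUnion_le
      have h2 : ∑ i, (K i).card ≤ ∑ _i : Fin t, 8 :=
        Finset.sum_le_sum fun i _ => card_le_of_independent (hK i)
      simp only [Finset.sum_const, Finset.card_univ, Fintype.card_fin, smul_eq_mul] at h2
      rw [card_M] at h1
      omega
  · apply le_antisymm
    · exact Nat.sInf_le ⟨_, four_circuits⟩
    · refine le_csInf ⟨4, _, four_circuits⟩ ?_
      rintro t ⟨C, hC⟩
      exact four_le hC

end Pool.Agent.Results.MP_a03d73_co.FourCircuits
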